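import Mathlib

/-!
Area preserving immersion of the cylinder `ℝ × S¹` into the plane that equals the polar
coordinate map for large values of the action coordinate.
-/

set_option autoImplicit false

open Real Set Filter Topology
open scoped ContDiff

namespace Pool.Agent.BP

/-- the two by two determinant -/
def det2 (u v : ℝ × ℝ) : ℝ := u.1 * v.2 - u.2 * v.1

noncomputable def em (t : ℝ) : ℝ := Real.exp (-t) / 8
noncomputable def al (t : ℝ) : ℝ := 1 + em t
noncomputable def be (t : ℝ) : ℝ := t * expNegInvGlue t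

lemma em_pos (t : ℝ) : 0 < em t := by unfold em; positivity

lemma al_gt (t : ℝ) : 1 < al t := by
  have := em_pos t
  unfold al; linarith

lemma em_hasDerivAt (t : ℝ) : HasDerivAt em (-em t) t := by
  unfold em
  have h : HasDerivAt (fun t : ℝ => Real.exp (-t)) (Real.exp (-t) * (-1)) t :=
    (hasDerivAt_neg t).exp
  exact (h.div_const 8).congr_deriv (by ring)

lemma al_hasDerivAt (t : ℝ) : HasDerivAt al (-em t) t := by
  have := (em_hasDerivAt t).const_add 1
  exact this

lemma em_contDiff : ContDiff ℝ ∞ em := by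
  unfold em
  exact (contDiff_neg.exp).div_const 8

lemma al_contDiff : ContDiff ℝ ∞ al := by
  unfold al
  exact contDiff_const.add em_contDiff

lemma be_contDiff : ContDiff ℝ ∞ be := by
  unfold be
  exact contDiff_id.mul expNegInvGlue.contDiff

lemma glue_hasDerivAt (t : ℝ) :
    HasDerivAt expNegInvGlue ((t⁻¹) ^ 2 * expNegInvGlue t) t := by
  have := expNegInvGlue.hasDerivAt_polynomial_eval_inv_mul (1 : Polynomial ℝ) t
  simpa using this

lemma be_hasDerivAt (t : ℝ) : HasDerivAt be ((1 + t⁻¹) * expNegInvGlue t) t := by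
  have h := (hasDerivAt_id t).mul (glue_hasDerivAt t)
  have h2 : (1 + t⁻¹) * expNegInvGlue t
      = 1 * expNegInvGlue t + id t * ((t⁻¹) ^ 2 * expNegInvGlue t) := by
    by_cases ht : t = 0
    · subst ht; simp [expNegInvGlue.zero]
    · simp only [id]; field_simp
  rw [h2]
  exact h

lemma be_deriv (t : ℝ) : deriv be t = (1 + t⁻¹) * expNegInvGlue t := (be_hasDerivAt t).deriv

lemma be_of_nonpos {t : ℝ} (ht : t ≤ 0) : be t = 0 := by
  simp [be, expNegInvGlue.zero_of_nonpos ht]

lemma be_deriv_of_nonpos {t : ℝ} (ht : t ≤ 0) : deriv be t = 0 := by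
  simp [be_deriv, expNegInvGlue.zero_of_nonpos ht]

lemma be_nonneg (t : ℝ) : 0 ≤ be t := by
  rcases le_or_gt t 0 with h | h
  · rw [be_of_nonpos h]
  · exact mul_nonneg h.le (expNegInvGlue.nonneg t)

lemma be_deriv_nonneg (t : ℝ) : 0 ≤ deriv be t := by
  rcases le_or_gt t 0 with h | h
  · rw [be_deriv_of_nonpos h]
  · rw [be_deriv]
    have : 0 < t⁻¹ := inv_pos.mpr h
    exact mul_nonneg (by linarith) (expNegInvGlue.nonneg t)

lemma glue_le_one (t : ℝ) : expNegInvGlue t ≤ 1 := by
  unfold expNegInvGlue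
  split_ifs with h
  · norm_num
  · push Not at h
    rw [Real.exp_le_one_iff]
    have : 0 < t⁻¹ := inv_pos.mpr h
    linarith

/-- the key growth inequality -/
lemma key_growth (t : ℝ) : 9 * em t * be t ^ 2 ≤ 4 * deriv be t := by
  rcases le_or_gt t 0 with h | h
  · rw [be_of_nonpos h, be_deriv_of_nonpos h]; simp
  · rw [be_deriv]
    have hE0 : 0 ≤ expNegInvGlue t := expNegInvGlue.nonneg t
    have hE1 := glue_le_one t
    have hinv : 0 < t⁻¹ := inv_pos.mpr h
    have hexp : 1 + t + t ^ 2 / 2 ≤ Real.exp t := Real.quadratic_le_exp_of_nonneg h.le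
    have hpos : 0 < Real.exp (-t) := Real.exp_pos _
    have hprod : Real.exp (-t) * Real.exp t = 1 := by
      rw [← Real.exp_add]; simp
    have h1 : t ^ 2 * Real.exp (-t) ≤ 2 := by nlinarith
    have h2 : 9 * em t * be t ^ 2
        = (9 / 8) * (t ^ 2 * Real.exp (-t)) * expNegInvGlue t * expNegInvGlue t := by
      unfold em be; ring
    rw [h2]
    have h3 : (9 / 8) * (t ^ 2 * Real.exp (-t)) ≤ 4 := by linarith
    have h4 : 0 ≤ (9 / 8) * (t ^ 2 * Real.exp (-t)) := by positivity
    have h5 : (9 / 8) * (t ^ 2 * Real.exp (-t)) * expNegInvGlue t * expNegInvGlue t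
        ≤ 4 * expNegInvGlue t := by
      have : (9 / 8) * (t ^ 2 * Real.exp (-t)) * expNegInvGlue t ≤ 4 := by nlinarith
      nlinarith
    nlinarith

/-- the (negated) Jacobian of the family of curves, as a function of `y = sin² φ` -/
noncomputable def qf (t y : ℝ) : ℝ :=
  em t * al t - 3 * em t * be t * y + (3 * em t * be t + al t * deriv be t) * y ^ 2

lemma qf_pos (t y : ℝ) : 0 < qf t y := by
  unfold qf
  have hm := em_pos t
  have ha := al_gt t
  have hb := be_nonneg t
  have hb' := be_deriv_nonneg t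
  have hk := key_growth t
  set m := em t
  set a := al t
  set b := be t
  set b' := deriv be t
  have ha0 : 0 < a := by linarith
  rcases hb'.eq_or_lt with h0 | h0
  · rw [← h0] at hk
    have hb2 : b ^ 2 = 0 := by
      have : 0 ≤ b ^ 2 := sq_nonneg b
      by_contra hne
      have hpos : 0 < b ^ 2 := lt_of_le_of_ne this (Ne.symm hne)
      have : 0 < 9 * m * b ^ 2 := by positivity
      linarith
    have hb0 : b = 0 := by simpa using hb2
    rw [hb0, ← h0]
    have : 0 < m * a := by positivity
    nlinarith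
  · have hA : 0 < 3 * m * b + a * b' := by positivity
    have hsq : 0 ≤ (2 * (3 * m * b + a * b') * y - 3 * m * b) ^ 2 := sq_nonneg _
    have h1 : 9 * m ^ 2 * b ^ 2 ≤ 4 * m * b' := by nlinarith
    have h2 : 4 * m * b' < 4 * m * (a * a * b') := by
      have haa : 1 < a * a := by nlinarith
      have : b' < a * a * b' := by nlinarith
      have h4m : 0 < 4 * m := by linarith
      exact mul_lt_mul_of_pos_left this h4m
    have h3 : 0 ≤ 12 * m ^ 2 * a * b := by positivity
    have h4 : 0 < 4 * (3 * m * b + a * b') * (m * a - 3 * m * b * y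
        + (3 * m * b + a * b') * y ^ 2) := by nlinarith
    by_contra hcon
    push Not at hcon
    nlinarith

/-- the area speed -/
noncomputable def Nf (t : ℝ) : ℝ :=
  em t * al t - (3 / 8) * em t * be t + (3 / 8) * al t * deriv be t

lemma Nf_pos (t : ℝ) : 0 < Nf t := by
  have h := qf_pos t (1 / 2)
  unfold qf at h
  unfold Nf
  have h1 : 0 ≤ em t * be t := mul_nonneg (em_pos t).le (be_nonneg t)
  have h2 : 0 ≤ al t * deriv be t := mul_nonneg (by linarith [al_gt t]) (be_deriv_nonneg t)
  nlinarith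

/-- the action (enclosed area divided by `2π`) -/
noncomputable def Pf (t : ℝ) : ℝ := (1 / 2) * al t ^ 2 - (3 / 8) * al t * be t

lemma Pf_hasDerivAt (t : ℝ) : HasDerivAt Pf (-Nf t) t := by
  have ha := al_hasDerivAt t
  have hb := (be_contDiff.differentiable (by simp)).differentiableAt (x := t) |>.hasDerivAt
  have h := ((ha.pow 2).const_mul (1 / 2)).sub ((ha.const_mul (3 / 8)).mul hb)
  have h' : HasDerivAt Pf _ t := h
  refine h'.congr_deriv ?_
  unfold Nf
  simp
  ring

/-- the angle coordinate as a function of `(τ, φ)` -/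
noncomputable def Tf (t x : ℝ) : ℝ :=
  x + (1 / Nf t) * ((3 / 4) * em t * be t * Real.sin (2 * x)
    + (3 * em t * be t + al t * deriv be t) * (-Real.sin (2 * x) / 4 + Real.sin (4 * x) / 32))

lemma deriv_be_contDiff : ContDiff ℝ ∞ (deriv be) :=
  (contDiff_infty_iff_deriv.mp be_contDiff).2

lemma Nf_contDiff : ContDiff ℝ ∞ Nf := by
  unfold Nf
  exact ((em_contDiff.mul al_contDiff).sub ((contDiff_const.mul em_contDiff).mul be_contDiff)).add
    ((contDiff_const.mul al_contDiff).mul deriv_be_contDiff)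

lemma Pf_contDiff : ContDiff ℝ ∞ Pf := by
  unfold Pf
  exact (contDiff_const.mul (al_contDiff.pow 2)).sub
    ((contDiff_const.mul al_contDiff).mul be_contDiff)

lemma Tf_hasDerivAt (t x : ℝ) : HasDerivAt (Tf t) (qf t (Real.sin x ^ 2) / Nf t) x := by
  have hN := (Nf_pos t).ne'
  have h2 : HasDerivAt (fun x : ℝ => Real.sin (2 * x)) (Real.cos (2 * x) * 2) x := by
    have := ((hasDerivAt_id x).const_mul 2).sin
    simpa using this
  have h4 : HasDerivAt (fun x : ℝ => Real.sin (4 * x)) (Real.cos (4 * x) * 4) x := by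
    have := ((hasDerivAt_id x).const_mul 4).sin
    simpa using this
  have h := (hasDerivAt_id x).add (((h2.const_mul ((3 / 4) * em t * be t)).add
    (((h2.neg.div_const 4).add (h4.div_const 32)).const_mul
      (3 * em t * be t + al t * deriv be t))).const_mul (1 / Nf t))
  have e4 : Real.cos (4 * x) = 8 * Real.sin x ^ 4 - 8 * Real.sin x ^ 2 + 1 := by
    have : (4 : ℝ) * x = 2 * (2 * x) := by ring
    rw [this, Real.cos_two_mul, Real.cos_two_mul, Real.cos_sq']
    ring
  have e2 : Real.cos (2 * x) = 1 - 2 * Real.sin x ^ 2 := by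
    rw [Real.cos_two_mul, Real.cos_sq']; ring
  have h' : HasDerivAt (Tf t) _ x := h
  refine h'.congr_deriv ?_
  rw [e4, e2]
  field_simp
  unfold qf
  have hNN : Nf t = em t * al t - (3 / 8) * em t * be t + (3 / 8) * al t * deriv be t := rfl
  rw [hNN]
  ring

end Pool.Agent.BP
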