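import Pool.Agent.BP.Cyl

set_option autoImplicit false

open Real Set Filter Topology
open scoped ContDiff

namespace Pool.Agent.BP

/-- the change of coordinates `(τ, φ) ↦ (P, θ)` -/
noncomputable def Fm (p : ℝ × ℝ) : ℝ × ℝ := (Pf p.1, Tf p.1 p.2)

lemma Tf2_contDiff : ContDiff ℝ ∞ (fun p : ℝ × ℝ => Tf p.1 p.2) := by
  unfold Tf
  have hf : ContDiff ℝ ∞ (fun p : ℝ × ℝ => p.1) := contDiff_fst
  have hs : ContDiff ℝ ∞ (fun p : ℝ × ℝ => p.2) := contDiff_snd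
  have hN : ContDiff ℝ ∞ (fun p : ℝ × ℝ => Nf p.1) := Nf_contDiff.comp hf
  have he : ContDiff ℝ ∞ (fun p : ℝ × ℝ => em p.1) := em_contDiff.comp hf
  have ha : ContDiff ℝ ∞ (fun p : ℝ × ℝ => al p.1) := al_contDiff.comp hf
  have hb : ContDiff ℝ ∞ (fun p : ℝ × ℝ => be p.1) := be_contDiff.comp hf
  have hdb : ContDiff ℝ ∞ (fun p : ℝ × ℝ => deriv be p.1) := deriv_be_contDiff.comp hf
  have hN' : ContDiff ℝ ∞ (fun p : ℝ × ℝ => 1 / Nf p.1) :=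
    contDiff_const.div hN (fun p => (Nf_pos p.1).ne')
  have h2 : ContDiff ℝ ∞ (fun p : ℝ × ℝ => Real.sin (2 * p.2)) :=
    Real.contDiff_sin.comp (contDiff_const.mul hs)
  have h4 : ContDiff ℝ ∞ (fun p : ℝ × ℝ => Real.sin (4 * p.2)) :=
    Real.contDiff_sin.comp (contDiff_const.mul hs)
  exact hs.add (hN'.mul ((((contDiff_const.mul he).mul hb).mul h2).add
    ((((contDiff_const.mul he).mul hb).add (ha.mul hdb)).mul
      ((h2.neg.div_const 4).add (h4.div_const 32)))))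

lemma Fm_contDiff : ContDiff ℝ ∞ Fm := by
  unfold Fm
  exact (Pf_contDiff.comp contDiff_fst).prodMk Tf2_contDiff

lemma Fm_hasFDerivAt (x : ℝ × ℝ) : ∃ c : ℝ, ∃ D : ℝ × ℝ →L[ℝ] ℝ × ℝ,
    HasFDerivAt Fm D x ∧ ∀ u : ℝ × ℝ, D u = (-Nf x.1 * u.1,
      c * u.1 + (qf x.1 (Real.sin x.2 ^ 2) / Nf x.1) * u.2) := by
  have hT : DifferentiableAt ℝ (fun p : ℝ × ℝ => Tf p.1 p.2) x :=
    (Tf2_contDiff.differentiable (by simp)).differentiableAt
  set DT := fderiv ℝ (fun p : ℝ × ℝ => Tf p.1 p.2) x with hDT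
  have hDT' : HasFDerivAt (fun p : ℝ × ℝ => Tf p.1 p.2) DT x := hT.hasFDerivAt
  have hP : HasFDerivAt (fun p : ℝ × ℝ => Pf p.1)
      ((-Nf x.1) • ContinuousLinearMap.fst ℝ ℝ ℝ) x :=
    (Pf_hasDerivAt x.1).comp_hasFDerivAt x hasFDerivAt_fst
  refine ⟨DT (1, 0), ((-Nf x.1) • ContinuousLinearMap.fst ℝ ℝ ℝ).prod DT, hP.prodMk hDT', ?_⟩
  intro u
  have h01 : DT (0, 1) = qf x.1 (Real.sin x.2 ^ 2) / Nf x.1 := by
    have hline : HasDerivAt (fun s : ℝ => (x.1, s)) ((0 : ℝ), (1 : ℝ)) x.2 :=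
      (hasDerivAt_const x.2 x.1).prodMk (hasDerivAt_id x.2)
    have hc : HasDerivAt (fun s : ℝ => Tf x.1 s) (DT (0, 1)) x.2 := by
      have hDT'' : HasFDerivAt (fun p : ℝ × ℝ => Tf p.1 p.2) DT (x.1, x.2) := hDT'
      exact hDT''.comp_hasDerivAt x.2 hline
    exact hc.unique (Tf_hasDerivAt x.1 x.2)
  have hu : u = u.1 • ((1 : ℝ), (0 : ℝ)) + u.2 • ((0 : ℝ), (1 : ℝ)) := by
    ext <;> simp
  have hDu : DT u = u.1 * DT (1, 0) + u.2 * DT (0, 1) := by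
    conv_lhs => rw [hu]
    rw [map_add, map_smul, map_smul]
    simp
  ext
  · simp
  · simp only [ContinuousLinearMap.prod_apply]
    rw [hDu, h01]; ring

/-- the explicit family of curves -/
noncomputable def Psm (p : ℝ × ℝ) : ℝ × ℝ :=
  (al p.1 * Real.cos p.2, al p.1 * Real.sin p.2 - be p.1 * Real.sin p.2 ^ 3)

lemma Psm_contDiff : ContDiff ℝ ∞ Psm := by
  unfold Psm
  have hf : ContDiff ℝ ∞ (fun p : ℝ × ℝ => p.1) := contDiff_fst
  have hs : ContDiff ℝ ∞ (fun p : ℝ × ℝ => p.2) := contDiff_snd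
  have ha : ContDiff ℝ ∞ (fun p : ℝ × ℝ => al p.1) := al_contDiff.comp hf
  have hb : ContDiff ℝ ∞ (fun p : ℝ × ℝ => be p.1) := be_contDiff.comp hf
  have hc : ContDiff ℝ ∞ (fun p : ℝ × ℝ => Real.cos p.2) := Real.contDiff_cos.comp hs
  have hsn : ContDiff ℝ ∞ (fun p : ℝ × ℝ => Real.sin p.2) := Real.contDiff_sin.comp hs
  exact (ha.mul hc).prodMk ((ha.mul hsn).sub (hb.mul (hsn.pow 3)))

lemma Psm_hasFDerivAt (x : ℝ × ℝ) : ∃ D : ℝ × ℝ →L[ℝ] ℝ × ℝ,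
    HasFDerivAt Psm D x ∧ ∀ u : ℝ × ℝ, D u =
      (-em x.1 * Real.cos x.2 * u.1 - al x.1 * Real.sin x.2 * u.2,
        (-em x.1 * Real.sin x.2 - deriv be x.1 * Real.sin x.2 ^ 3) * u.1 +
        (al x.1 * Real.cos x.2 - 3 * be x.1 * Real.sin x.2 ^ 2 * Real.cos x.2) * u.2) := by
  have hb := (be_contDiff.differentiable (by simp)).differentiableAt (x := x.1) |>.hasDerivAt
  have ha : HasFDerivAt (fun p : ℝ × ℝ => al p.1)
      ((-em x.1) • ContinuousLinearMap.fst ℝ ℝ ℝ) x :=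
    (al_hasDerivAt x.1).comp_hasFDerivAt x hasFDerivAt_fst
  have hb' : HasFDerivAt (fun p : ℝ × ℝ => be p.1)
      ((deriv be x.1) • ContinuousLinearMap.fst ℝ ℝ ℝ) x :=
    hb.comp_hasFDerivAt x hasFDerivAt_fst
  have hc : HasFDerivAt (fun p : ℝ × ℝ => Real.cos p.2)
      ((-Real.sin x.2) • ContinuousLinearMap.snd ℝ ℝ ℝ) x :=
    (Real.hasDerivAt_cos x.2).comp_hasFDerivAt x hasFDerivAt_snd
  have hsn : HasFDerivAt (fun p : ℝ × ℝ => Real.sin p.2)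
      ((Real.cos x.2) • ContinuousLinearMap.snd ℝ ℝ ℝ) x :=
    (Real.hasDerivAt_sin x.2).comp_hasFDerivAt x hasFDerivAt_snd
  have h := (ha.mul hc).prodMk ((ha.mul hsn).sub (hb'.mul (hsn.pow 3)))
  refine ⟨_, h, ?_⟩
  intro u
  ext
  · simp
    ring
  · simp
    ring

lemma Psm_jac {x : ℝ × ℝ} {D : ℝ × ℝ →L[ℝ] ℝ × ℝ} (hD : HasFDerivAt Psm D x) (u v : ℝ × ℝ) :
    det2 (D u) (D v) = -qf x.1 (Real.sin x.2 ^ 2) * det2 u v := by
  obtain ⟨D', hD', h⟩ := Psm_hasFDerivAt x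
  have : D = D' := hD.unique hD'
  subst this
  rw [h u, h v]
  unfold det2 qf
  simp only
  have hc : Real.cos x.2 ^ 2 = 1 - Real.sin x.2 ^ 2 := Real.cos_sq' x.2
  linear_combination
    (-(em x.1) * al x.1 + 3 * em x.1 * be x.1 * Real.sin x.2 ^ 2)
      * (u.1 * v.2 - u.2 * v.1) * hc

lemma Fm_jac {x : ℝ × ℝ} {D : ℝ × ℝ →L[ℝ] ℝ × ℝ} (hD : HasFDerivAt Fm D x) (u v : ℝ × ℝ) :
    det2 (D u) (D v) = -qf x.1 (Real.sin x.2 ^ 2) * det2 u v := by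
  obtain ⟨c, D', hD', h⟩ := Fm_hasFDerivAt x
  have : D = D' := hD.unique hD'
  subst this
  rw [h u, h v]
  unfold det2
  simp only
  have hN := (Nf_pos x.1).ne'
  field_simp
  ring

lemma Fm_equiv (x : ℝ × ℝ) : ∃ D : (ℝ × ℝ) ≃L[ℝ] (ℝ × ℝ),
    HasFDerivAt Fm (D : ℝ × ℝ →L[ℝ] ℝ × ℝ) x := by
  obtain ⟨c, D', hD', h⟩ := Fm_hasFDerivAt x
  have hN := (Nf_pos x.1).ne'
  have hq := (qf_pos x.1 (Real.sin x.2 ^ 2)).ne'
  have hinj : Function.Injective (D' : ℝ × ℝ →ₗ[ℝ] ℝ × ℝ) := by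
    rw [← LinearMap.ker_eq_bot, LinearMap.ker_eq_bot']
    intro u hu
    have h1 : D' u = 0 := hu
    rw [h u] at h1
    have h2 := congrArg Prod.fst h1
    have h3 := congrArg Prod.snd h1
    simp only [Prod.fst_zero, Prod.snd_zero] at h2 h3
    have hu1 : u.1 = 0 := by
      rcases mul_eq_zero.mp h2 with h4 | h4
      · exact absurd (neg_eq_zero.mp h4) hN
      · exact h4
    rw [hu1, mul_zero, zero_add] at h3
    have hu2 : u.2 = 0 := by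
      rcases mul_eq_zero.mp h3 with h4 | h4
      · exact absurd h4 (div_ne_zero hq hN)
      · exact h4
    ext
    · exact hu1
    · exact hu2
  have hsurj : Function.Surjective (D' : ℝ × ℝ →ₗ[ℝ] ℝ × ℝ) :=
    LinearMap.injective_iff_surjective.mp hinj
  refine ⟨ContinuousLinearEquiv.ofBijective D' (LinearMap.ker_eq_bot.mpr hinj)
    (LinearMap.range_eq_top.mpr hsurj), ?_⟩
  rw [ContinuousLinearEquiv.coe_ofBijective]
  exact hD'

end Pool.Agent.BP
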