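import Pool.Agent.BP.Cyl2

set_option autoImplicit false

open Real Set Filter Topology
open scoped ContDiff

namespace Pool.Agent.BP

lemma Pf_strictAnti : StrictAnti Pf := by
  apply strictAnti_of_deriv_neg
  intro t
  rw [(Pf_hasDerivAt t).deriv]
  linarith [Nf_pos t]

lemma Pf_tendsto_atBot : Tendsto Pf atBot atTop := by
  have h1 : Tendsto (fun t : ℝ => Real.exp (-t) / 8) atBot atTop :=
    (Real.tendsto_exp_atTop.comp tendsto_neg_atBot_atTop).atTop_div_const (by norm_num)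
  refine tendsto_atTop_mono' _ ?_ h1
  filter_upwards [eventually_le_atBot (0 : ℝ)] with t ht
  have hP : Pf t = (1 / 2) * al t ^ 2 := by
    unfold Pf; rw [be_of_nonpos ht]; ring
  rw [hP]
  have := em_pos t
  unfold al
  unfold em at *
  nlinarith

lemma Pf_tendsto_atTop : Tendsto Pf atTop atBot := by
  have h1 : Tendsto (fun t : ℝ => 1 - (1 / 8) * t) atTop atBot := by
    have h0 : Tendsto (fun t : ℝ => (-(1 / 8)) * t) atTop atBot :=
      tendsto_id.const_mul_atTop_of_neg (by norm_num)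
    have h2 : Tendsto (fun t : ℝ => 1 + (-(1 / 8)) * t) atTop atBot :=
      tendsto_atBot_add_const_left _ 1 h0
    refine h2.congr (fun t => by ring)
  refine tendsto_atBot_mono' _ ?_ h1
  filter_upwards [eventually_ge_atTop (1 : ℝ)] with t ht
  have ht0 : 0 < t := by linarith
  have ha1 := al_gt t
  have hem : em t ≤ 1 / 8 := by
    unfold em
    have : Real.exp (-t) ≤ 1 := by
      rw [Real.exp_le_one_iff]; linarith
    linarith
  have ha2 : al t ≤ 9 / 8 := by unfold al; linarith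
  have hE : (1 : ℝ) / 3 ≤ expNegInvGlue t := by
    have : expNegInvGlue t = Real.exp (-t⁻¹) := by
      unfold expNegInvGlue; rw [if_neg (by linarith)]
    rw [this, Real.exp_neg]
    have h3 : Real.exp (t⁻¹) ≤ 3 := by
      have : t⁻¹ ≤ 1 := inv_le_one_of_one_le₀ ht
      calc Real.exp (t⁻¹) ≤ Real.exp 1 := Real.exp_le_exp.mpr this
        _ ≤ 3 := by linarith [Real.exp_one_lt_d9]
    rw [one_div]
    exact inv_anti₀ (Real.exp_pos _) h3
  have hb : t / 3 ≤ be t := by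
    unfold be
    nlinarith
  unfold Pf
  nlinarith

lemma Pf_surj : Function.Surjective Pf :=
  Pf_contDiff.continuous.surjective' Pf_tendsto_atBot Pf_tendsto_atTop

lemma Tf_strictMono (t : ℝ) : StrictMono (Tf t) := by
  apply strictMono_of_deriv_pos
  intro x
  rw [(Tf_hasDerivAt t x).deriv]
  exact div_pos (qf_pos _ _) (Nf_pos t)

lemma Tf_add_two_pi (t x : ℝ) : Tf t (x + 2 * π) = Tf t x + 2 * π := by
  unfold Tf
  have h2 : Real.sin (2 * (x + 2 * π)) = Real.sin (2 * x) := by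
    have : 2 * (x + 2 * π) = 2 * x + (2 : ℕ) * (2 * π) := by push_cast; ring
    rw [this, Real.sin_add_nat_mul_two_pi]
  have h4 : Real.sin (4 * (x + 2 * π)) = Real.sin (4 * x) := by
    have : 4 * (x + 2 * π) = 4 * x + (4 : ℕ) * (2 * π) := by push_cast; ring
    rw [this, Real.sin_add_nat_mul_two_pi]
  rw [h2, h4]; ring

lemma Tf_bdd (t : ℝ) : ∃ C : ℝ, ∀ x, |Tf t x - x| ≤ C := by
  refine ⟨|1 / Nf t| * (|(3 / 4) * em t * be t| * 1
    + |3 * em t * be t + al t * deriv be t| * 1), ?_⟩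
  intro x
  unfold Tf
  have : x + 1 / Nf t * (3 / 4 * em t * be t * Real.sin (2 * x)
      + (3 * em t * be t + al t * deriv be t) * (-Real.sin (2 * x) / 4 + Real.sin (4 * x) / 32)) - x
      = 1 / Nf t * (3 / 4 * em t * be t * Real.sin (2 * x)
      + (3 * em t * be t + al t * deriv be t) * (-Real.sin (2 * x) / 4 + Real.sin (4 * x) / 32)) := by
    ring
  rw [this, abs_mul]
  apply mul_le_mul_of_nonneg_left _ (abs_nonneg _)
  refine (abs_add_le _ _).trans ?_
  rw [abs_mul, abs_mul (3 * em t * be t + al t * deriv be t)]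
  apply add_le_add
  · exact mul_le_mul_of_nonneg_left (Real.abs_sin_le_one _) (abs_nonneg _)
  · apply mul_le_mul_of_nonneg_left _ (abs_nonneg _)
    have h1 := Real.abs_sin_le_one (2 * x)
    have h2 := Real.abs_sin_le_one (4 * x)
    rw [abs_le] at *
    constructor <;> linarith [h1.1, h1.2, h2.1, h2.2]

lemma Tf_surj (t : ℝ) : Function.Surjective (Tf t) := by
  have hc : Continuous (Tf t) := by
    have : Differentiable ℝ (Tf t) := fun x => (Tf_hasDerivAt t x).differentiableAt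
    exact this.continuous
  obtain ⟨C, hC⟩ := Tf_bdd t
  apply hc.surjective
  · have h1 : Tendsto (fun x : ℝ => x + (-C)) atTop atTop :=
      tendsto_atTop_add_const_right _ _ tendsto_id
    refine tendsto_atTop_mono (fun x => ?_) h1
    have := (abs_le.mp (hC x)).1
    linarith
  · have h1 : Tendsto (fun x : ℝ => x + C) atBot atBot :=
      tendsto_atBot_add_const_right _ _ tendsto_id
    refine tendsto_atBot_mono (fun x => ?_) h1
    have := (abs_le.mp (hC x)).2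
    linarith

lemma Fm_bij : Function.Bijective Fm := by
  constructor
  · rintro ⟨a, b⟩ ⟨c, d⟩ h
    have h1 : Pf a = Pf c := congrArg Prod.fst h
    have h2 : Tf a b = Tf c d := congrArg Prod.snd h
    have hac : a = c := Pf_strictAnti.injective h1
    subst hac
    have hbd : b = d := (Tf_strictMono a).injective h2
    rw [hbd]
  · rintro ⟨a, b⟩
    obtain ⟨t, ht⟩ := Pf_surj a
    obtain ⟨x, hx⟩ := Tf_surj t b
    exact ⟨(t, x), by unfold Fm; simp only; rw [ht, hx]⟩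

lemma Fm_open : IsOpenMap Fm := by
  choose D hD using Fm_equiv
  refine isOpenMap_of_hasStrictFDerivAt_equiv (f' := D) (fun x => ?_)
  have h1 : HasStrictFDerivAt Fm (fderiv ℝ Fm x) x :=
    (Fm_contDiff.contDiffAt (x := x)).hasStrictFDerivAt (by simp)
  have h2 : fderiv ℝ Fm x = (D x : ℝ × ℝ →L[ℝ] ℝ × ℝ) := (hD x).fderiv
  rwa [h2] at h1

/-- `Fm` as a homeomorphism -/
noncomputable def Fh : (ℝ × ℝ) ≃ₜ (ℝ × ℝ) :=
  (Equiv.ofBijective Fm Fm_bij).toHomeomorphOfContinuousOpen Fm_contDiff.continuous Fm_open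

lemma Fh_apply (x : ℝ × ℝ) : Fh x = Fm x := rfl

lemma Fh_symm_contDiff : ContDiff ℝ ∞ Fh.symm := by
  choose D hD using Fm_equiv
  exact Homeomorph.contDiff_symm Fh (f₀' := D) (fun a => hD a) Fm_contDiff

/-- the area preserving immersion of the cylinder -/
noncomputable def Phm (p : ℝ × ℝ) : ℝ × ℝ := Psm (Fh.symm p)

lemma Phm_contDiff : ContDiff ℝ ∞ Phm := Psm_contDiff.comp Fh_symm_contDiff

lemma Phm_jac {x : ℝ × ℝ} {D : ℝ × ℝ →L[ℝ] ℝ × ℝ} (hD : HasFDerivAt Phm D x) (u v : ℝ × ℝ) :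
    det2 (D u) (D v) = det2 u v := by
  set y := Fh.symm x with hy
  obtain ⟨DP, hDP, -⟩ := Psm_hasFDerivAt y
  have hG : HasFDerivAt Fh.symm (fderiv ℝ Fh.symm x) x :=
    ((Fh_symm_contDiff.differentiable (by simp)).differentiableAt).hasFDerivAt
  set G := fderiv ℝ Fh.symm x
  have hcomp : HasFDerivAt Phm (DP.comp G) x := hDP.comp x hG
  have hDeq : D = DP.comp G := hD.unique hcomp
  obtain ⟨DF, hDF⟩ := Fm_equiv y
  have hDF' : HasFDerivAt Fm (DF : ℝ × ℝ →L[ℝ] ℝ × ℝ) (Fh.symm x) := hDF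
  have hid : HasFDerivAt (fun z : ℝ × ℝ => Fm (Fh.symm z))
      ((DF : ℝ × ℝ →L[ℝ] ℝ × ℝ).comp G) x := hDF'.comp x hG
  have hid2 : (fun z : ℝ × ℝ => Fm (Fh.symm z)) = id := by
    funext z
    exact Fh.apply_symm_apply z
  rw [hid2] at hid
  have hidd := hid.unique (hasFDerivAt_id x)
  have hFu : ∀ w : ℝ × ℝ, DF (G w) = w := by
    intro w
    have := congrArg (fun L : ℝ × ℝ →L[ℝ] ℝ × ℝ => L w) hidd
    simpa using this
  have h1 := Psm_jac hDP (G u) (G v)
  have h2 := Fm_jac hDF (G u) (G v)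
  have h3 : det2 u v = -qf y.1 (Real.sin y.2 ^ 2) * det2 (G u) (G v) := by
    rw [← h2]
    simp only [ContinuousLinearEquiv.coe_coe, hFu]
  rw [hDeq]
  simp only [ContinuousLinearMap.comp_apply]
  rw [h1, h3]

lemma Fh_symm_add (a b : ℝ) : Fh.symm (a, b + 2 * π)
    = ((Fh.symm (a, b)).1, (Fh.symm (a, b)).2 + 2 * π) := by
  apply Fh.injective
  rw [Fh.apply_symm_apply]
  have h : Fm (Fh.symm (a, b)) = (a, b) := Fh.apply_symm_apply (a, b)
  have h1 : Pf (Fh.symm (a, b)).1 = a := congrArg Prod.fst h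
  have h2 : Tf (Fh.symm (a, b)).1 (Fh.symm (a, b)).2 = b := congrArg Prod.snd h
  rw [Fh_apply]
  unfold Fm
  simp only
  rw [Tf_add_two_pi, h1, h2]

lemma Phm_add (a b : ℝ) : Phm (a, b + 2 * π) = Phm (a, b) := by
  unfold Phm
  rw [Fh_symm_add]
  unfold Psm
  simp only
  rw [Real.cos_add_two_pi, Real.sin_add_two_pi]

lemma Phm_periodic (a : ℝ) : Function.Periodic (fun b => Phm (a, b)) (2 * π) := fun b => Phm_add a b

lemma Phm_of_large {a : ℝ} (ha : 1 ≤ a) (b : ℝ) :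
    Phm (a, b) = (Real.sqrt (2 * a) * Real.cos b, Real.sqrt (2 * a) * Real.sin b) := by
  obtain ⟨t, ht⟩ := Pf_surj a
  have ht0 : t ≤ 0 := by
    by_contra hcon
    push Not at hcon
    have h1 := Pf_strictAnti hcon
    have h0 : Pf 0 = 81 / 128 := by
      unfold Pf
      rw [be_of_nonpos le_rfl]
      unfold al em
      norm_num
    rw [h0, ht] at h1
    linarith
  have hb := be_of_nonpos ht0
  have hb' := be_deriv_of_nonpos ht0
  have hF : Fm (t, b) = (a, b) := by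
    unfold Fm
    simp only
    rw [ht]
    have : Tf t b = b := by
      unfold Tf; rw [hb, hb']; ring
    rw [this]
  have hs : Fh.symm (a, b) = (t, b) := by
    apply Fh.injective
    rw [Fh.apply_symm_apply, Fh_apply, hF]
  unfold Phm
  rw [hs]
  unfold Psm
  simp only
  rw [hb]
  have hP : 2 * a = al t ^ 2 := by
    rw [← ht]; unfold Pf; rw [hb]; ring
  rw [hP, Real.sqrt_sq (by linarith [al_gt t])]
  simp

/-- rescaled version -/
noncomputable def Phk (k : ℝ) (p : ℝ × ℝ) : ℝ × ℝ := k • Phm (p.1 / k ^ 2, p.2)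

lemma Phk_contDiff (k : ℝ) : ContDiff ℝ ∞ (Phk k) := by
  have h : ContDiff ℝ ∞ (fun p : ℝ × ℝ => Phm (p.1 / k ^ 2, p.2)) :=
    Phm_contDiff.comp ((contDiff_fst.div_const _).prodMk contDiff_snd)
  exact h.const_smul k

lemma Phk_jac {k : ℝ} (hk : 0 < k) {x : ℝ × ℝ} {D : ℝ × ℝ →L[ℝ] ℝ × ℝ}
    (hD : HasFDerivAt (Phk k) D x) (u v : ℝ × ℝ) :
    det2 (D u) (D v) = det2 u v := by
  have h1 : HasFDerivAt Phm (fderiv ℝ Phm (x.1 / k ^ 2, x.2)) (x.1 / k ^ 2, x.2) :=
    ((Phm_contDiff.differentiable (by simp)).differentiableAt).hasFDerivAt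
  set DP := fderiv ℝ Phm (x.1 / k ^ 2, x.2)
  have hA : HasFDerivAt (fun p : ℝ × ℝ => ((p.1 / k ^ 2 : ℝ), p.2))
      ((((k ^ 2)⁻¹ : ℝ) • ContinuousLinearMap.fst ℝ ℝ ℝ).prod (ContinuousLinearMap.snd ℝ ℝ ℝ)) x := by
    refine HasFDerivAt.prodMk ?_ hasFDerivAt_snd
    have := (hasFDerivAt_fst (𝕜 := ℝ) (p := x) (E := ℝ) (F := ℝ)).const_mul ((k ^ 2)⁻¹)
    refine this.congr_of_eventuallyEq ?_
    filter_upwards with p
    rw [div_eq_inv_mul]
  have h2 := (h1.comp x hA).const_smul k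
  have h3 : D = _ := hD.unique h2
  rw [h3]
  simp only [smul_apply, ContinuousLinearMap.comp_apply,
    ContinuousLinearMap.prod_apply, ContinuousLinearMap.coe_fst', ContinuousLinearMap.coe_snd']
  have h4 := Phm_jac h1 ((k ^ 2)⁻¹ • u.1, u.2) ((k ^ 2)⁻¹ • v.1, v.2)
  unfold det2 at *
  simp only [smul_eq_mul, Prod.smul_fst, Prod.smul_snd] at *
  have hk2 : k ≠ 0 := hk.ne'
  have h5 : k * (DP ((k ^ 2)⁻¹ * u.1, u.2)).1 * (k * (DP ((k ^ 2)⁻¹ * v.1, v.2)).2)
      - k * (DP ((k ^ 2)⁻¹ * u.1, u.2)).2 * (k * (DP ((k ^ 2)⁻¹ * v.1, v.2)).1)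
      = k ^ 2 * ((DP ((k ^ 2)⁻¹ * u.1, u.2)).1 * (DP ((k ^ 2)⁻¹ * v.1, v.2)).2
      - (DP ((k ^ 2)⁻¹ * u.1, u.2)).2 * (DP ((k ^ 2)⁻¹ * v.1, v.2)).1) := by ring
  rw [h5, h4]
  field_simp

lemma Phk_periodic (k a : ℝ) : Function.Periodic (fun b => Phk k (a, b)) (2 * π) := by
  intro b
  unfold Phk
  simp only
  rw [Phm_add]

lemma Phk_of_large {k : ℝ} (hk : 0 < k) {a : ℝ} (ha : k ^ 2 ≤ a) (b : ℝ) :
    Phk k (a, b) = (Real.sqrt (2 * a) * Real.cos b, Real.sqrt (2 * a) * Real.sin b) := by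
  unfold Phk
  have hk2 : 0 < k ^ 2 := by positivity
  have h1 : 1 ≤ a / k ^ 2 := (one_le_div hk2).mpr ha
  simp only
  rw [Phm_of_large h1]
  have h2 : Real.sqrt (2 * (a / k ^ 2)) = Real.sqrt (2 * a) / k := by
    rw [← mul_div_assoc, Real.sqrt_div' _ hk2.le, Real.sqrt_sq hk.le]
  rw [h2]
  ext
  · simp only [Prod.smul_fst, smul_eq_mul]
    field_simp
  · simp only [Prod.smul_snd, smul_eq_mul]
    field_simp

end Pool.Agent.BP
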