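import Pool.Agent.BP.Polar

set_option autoImplicit false

open Real Set Filter Topology
open scoped ContDiff

namespace Pool.Agent.BP

section glue

variable {E : Type} [NormedAddCommGroup E] [NormedSpace ℝ E]

/-- the glued map -/
noncomputable def psG (Z : E →L[ℝ] ℝ × ℝ) (g : E → ℝ) (k c : ℝ) (q : E) : ℝ × ℝ :=
  if nsq Z q < c then psA Z g q else psB Z g k q

lemma psA_eq_psB (Z : E →L[ℝ] ℝ × ℝ) {g : E → ℝ} {k : ℝ} (hk : 0 < k) {q : E}
    (hq : 0 < nsq Z q) (hg : k ^ 2 ≤ nsq Z q * g q) : psA Z g q = psB Z g k q := by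
  unfold psA psB
  rw [Phk_of_large hk hg]
  have hgpos : 0 < g q := by
    have : 0 < nsq Z q * g q := lt_of_lt_of_le (by positivity) hg
    exact (pos_iff_pos_of_mul_pos this).mp hq
  have hnorm : ‖wz Z q‖ = Real.sqrt (nsq Z q) := by
    rw [Complex.norm_def]
    congr 1
    unfold wz nsq
    rw [Complex.normSq_mk]; ring
  have hw : wz Z q ≠ 0 := by
    intro h0
    rw [h0, norm_zero] at hnorm
    have := Real.sqrt_pos.mpr hq
    linarith
  have hs : 0 < Real.sqrt (nsq Z q) := Real.sqrt_pos.mpr hq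
  rw [Complex.cos_arg hw, Complex.sin_arg, hnorm]
  have hmul : Real.sqrt (2 * (nsq Z q * g q)) = Real.sqrt (nsq Z q) * Real.sqrt (2 * g q) := by
    rw [← Real.sqrt_mul hq.le]
    congr 1; ring
  rw [hmul]
  ext
  · simp only [Prod.smul_fst, smul_eq_mul]
    unfold wz
    field_simp
  · simp only [Prod.smul_snd, smul_eq_mul]
    unfold wz
    field_simp

lemma psG_spec (Z : E →L[ℝ] ℝ × ℝ) {g : E → ℝ} (hg : ContDiff ℝ ∞ g) {k c : ℝ}
    (hk : 0 < k) (hc : 0 < c) {U : Set E} (hU : IsOpen U)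
    (h1 : ∀ q ∈ U, nsq Z q < c → 0 < g q)
    (h2 : ∀ q ∈ U, c / 2 < nsq Z q → nsq Z q < c → k ^ 2 ≤ nsq Z q * g q)
    {p : E} (hp : p ∈ U) :
    ContDiffAt ℝ ∞ (psG Z g k c) p ∧
      ∀ u v : E, det2 (fderiv ℝ (psG Z g k c) p u) (fderiv ℝ (psG Z g k c) p v)
        = dform Z g p u v := by
  have hcont : Continuous (nsq Z) := (nsq_contDiff Z).continuous
  rcases lt_or_ge (nsq Z p) c with hlt | hge
  · have hev : psG Z g k c =ᶠ[𝓝 p] psA Z g := by
      filter_upwards [hcont.continuousAt.eventually_lt continuousAt_const hlt] with q hq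
      unfold psG
      rw [if_pos hq]
    have hspec := psA_spec Z hg.contDiffAt (h1 p hp hlt)
    refine ⟨hspec.1.congr_of_eventuallyEq hev, ?_⟩
    rw [hev.fderiv_eq]
    exact hspec.2
  · have hpos : c / 2 < nsq Z p := by linarith
    have hev : psG Z g k c =ᶠ[𝓝 p] psB Z g k := by
      filter_upwards [continuousAt_const.eventually_lt hcont.continuousAt hpos,
        hU.mem_nhds hp] with q hq hqU
      unfold psG
      split_ifs with hqc
      · exact psA_eq_psB Z hk (by linarith) (h2 q hqU hq hqc)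
      · rfl
    have hw : wz Z p ≠ 0 := by
      intro h0
      have h4 : Complex.normSq (wz Z p) = nsq Z p := by
        unfold wz nsq
        rw [Complex.normSq_mk]; ring
      rw [h0, map_zero] at h4
      linarith
    have hspec := psB_spec Z hg.contDiffAt hw hk
    refine ⟨hspec.1.congr_of_eventuallyEq hev, ?_⟩
    rw [hev.fderiv_eq]
    exact hspec.2

end glue

/-- the function `b (s) = 2 cos s - 2 s sin s` -/
noncomputable def bb (t : ℝ) : ℝ := 2 * Real.cos t - 2 * t * Real.sin t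

/-- `g (s,t) = cos s + (s + t - π) b(t)` -/
noncomputable def gg (s t : ℝ) : ℝ := Real.cos s + (s + t - π) * bb t

lemma bb_hasDerivAt (t : ℝ) :
    HasDerivAt bb (-4 * Real.sin t - 2 * t * Real.cos t) t := by
  have h := ((Real.hasDerivAt_cos t).const_mul 2).sub
    (((hasDerivAt_id t).const_mul 2).mul (Real.hasDerivAt_sin t))
  have h' : HasDerivAt bb _ t := h
  refine h'.congr_deriv ?_
  simp
  ring

lemma bb_contDiff : ContDiff ℝ ∞ bb := by
  unfold bb
  exact (contDiff_const.mul Real.contDiff_cos).sub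
    ((contDiff_const.mul contDiff_id).mul Real.contDiff_sin)

lemma gg_contDiff : ContDiff ℝ ∞ (fun x : ℝ × ℝ => gg x.1 x.2) := by
  unfold gg
  exact (Real.contDiff_cos.comp contDiff_fst).add
    (((contDiff_fst.add contDiff_snd).sub contDiff_const).mul (bb_contDiff.comp contDiff_snd))

lemma gg_hasFDerivAt (x : ℝ × ℝ) : ∃ D : ℝ × ℝ →L[ℝ] ℝ,
    HasFDerivAt (fun x : ℝ × ℝ => gg x.1 x.2) D x ∧ ∀ u : ℝ × ℝ,
      D u = (-Real.sin x.1 + bb x.2) * u.1 +
        (bb x.2 + (x.1 + x.2 - π) * (-4 * Real.sin x.2 - 2 * x.2 * Real.cos x.2)) * u.2 := by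
  have hc : HasFDerivAt (fun p : ℝ × ℝ => Real.cos p.1)
      ((-Real.sin x.1) • ContinuousLinearMap.fst ℝ ℝ ℝ) x :=
    (Real.hasDerivAt_cos x.1).comp_hasFDerivAt x hasFDerivAt_fst
  have hb : HasFDerivAt (fun p : ℝ × ℝ => bb p.2)
      ((-4 * Real.sin x.2 - 2 * x.2 * Real.cos x.2) • ContinuousLinearMap.snd ℝ ℝ ℝ) x :=
    (bb_hasDerivAt x.2).comp_hasFDerivAt x hasFDerivAt_snd
  have hf : HasFDerivAt (fun p : ℝ × ℝ => p.1 + p.2 - π)
      (ContinuousLinearMap.fst ℝ ℝ ℝ + ContinuousLinearMap.snd ℝ ℝ ℝ) x :=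
    (hasFDerivAt_fst.add hasFDerivAt_snd).sub_const π
  have h := hc.add (hf.mul hb)
  refine ⟨_, h, ?_⟩
  intro u
  simp
  ring

lemma gg_zero {f : ℝ} (hf : |f| ≤ π / 3) : 1 / 2 ≤ gg 0 (π + f) := by
  have hpi := Real.pi_gt_three
  have hpi4 := Real.pi_le_four
  obtain ⟨h1, h2⟩ := abs_le.mp hf
  have hval : gg 0 (π + f) = 1 - 2 * f * Real.cos f + 2 * (π + f) * f * Real.sin f := by
    unfold gg bb
    rw [Real.cos_zero, add_comm π f, Real.cos_add_pi, Real.sin_add_pi]
    ring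
  rw [hval]
  rcases le_or_gt 0 f with h0 | h0
  · have hcos : Real.cos f ≤ 1 := Real.cos_le_one f
    have hsin : 2 / π * f ≤ Real.sin f := Real.mul_le_sin h0 (by linarith)
    have hhalf : (1 : ℝ) / 2 ≤ 2 / π := by
      rw [div_le_div_iff₀ (by norm_num) Real.pi_pos]; linarith
    have hsin2 : f / 2 ≤ Real.sin f := by nlinarith
    have h3 : 2 * f * Real.cos f ≤ 2 * f := by nlinarith
    have h4 : 2 * (π + f) * f * Real.sin f ≥ 2 * f ^ 2 := by
      have h5 : 2 * (π + f) * f ≥ 4 * f := by nlinarith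
      have h6 : 0 ≤ Real.sin f := by linarith
      have h7 : 4 * f * Real.sin f ≥ 2 * f ^ 2 := by nlinarith
      nlinarith
    nlinarith [sq_nonneg (2 * f - 1)]
  · have hcos : 0 ≤ Real.cos f := Real.cos_nonneg_of_neg_pi_div_two_le_of_le (by linarith) (by linarith)
    have hsin : Real.sin f ≤ 0 := Real.sin_nonpos_of_nonpos_of_neg_pi_le h0.le (by linarith)
    have h3 : 2 * f * Real.cos f ≤ 0 := by nlinarith
    have h4 : 0 ≤ 2 * (π + f) * f * Real.sin f := by
      have : 0 ≤ f * Real.sin f := mul_nonneg_of_nonpos_of_nonpos h0.le hsin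
      have h8 : 0 ≤ π + f := by linarith
      nlinarith
    linarith

/-- positivity near the axis -/
lemma exists_cut : ∃ c : ℝ, 0 < c ∧ ∀ s t : ℝ, 0 ≤ s → |s + t - π| ≤ π / 3 → s < c →
    1 / 4 < gg s t := by
  have hcont : Continuous (fun x : ℝ × ℝ => gg x.1 (π + x.2 - x.1)) := by
    have h := gg_contDiff.continuous
    exact h.comp (continuous_fst.prodMk ((continuous_const.add continuous_snd).sub continuous_fst))
  have hopen : IsOpen {x : ℝ × ℝ | 1 / 4 < gg x.1 (π + x.2 - x.1)} :=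
    isOpen_lt continuous_const hcont
  have hsub : ({0} : Set ℝ) ×ˢ Icc (-(π / 3)) (π / 3) ⊆
      {x : ℝ × ℝ | 1 / 4 < gg x.1 (π + x.2 - x.1)} := by
    rintro ⟨a, b⟩ ⟨ha, hb⟩
    simp only [mem_singleton_iff] at ha
    subst ha
    simp only [mem_ofPred_eq, sub_zero]
    have := gg_zero (abs_le.mpr hb)
    linarith
  obtain ⟨u, v, hu, hv, hsu, htv, huv⟩ :=
    generalized_tube_lemma isCompact_singleton isCompact_Icc hopen hsub
  obtain ⟨c, hc, hball⟩ := Metric.isOpen_iff.mp hu 0 (hsu rfl)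
  refine ⟨c, hc, ?_⟩
  intro s t hs ht hsc
  have hsu' : s ∈ u := hball (by
    rw [Metric.mem_ball, Real.dist_eq, sub_zero, abs_of_nonneg hs]; exact hsc)
  have htv' : s + t - π ∈ v := htv (abs_le.mp ht)
  have := huv (mk_mem_prod hsu' htv')
  simp only [mem_ofPred_eq] at this
  have h2 : π + (s + t - π) - s = t := by ring
  rwa [h2] at this

/-- the function whose zero gives a degenerate point on the diagonal torus -/
noncomputable def KK (t : ℝ) : ℝ :=
  gg t t + t * ((-Real.sin t + bb t) +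
    (bb t + (t + t - π) * (-4 * Real.sin t - 2 * t * Real.cos t)))

lemma exists_KK_zero : ∃ t ∈ Icc (π / 3) (π / 2), KK t = 0 := by
  have hpi := Real.pi_gt_three
  have hpi4 := Real.pi_le_four
  have hcont : Continuous KK := by
    unfold KK
    have h1 : Continuous (fun t : ℝ => gg t t) :=
      gg_contDiff.continuous.comp (continuous_id.prodMk continuous_id)
    have h2 : Continuous bb := bb_contDiff.continuous
    fun_prop
  have hle : π / 3 ≤ π / 2 := by linarith
  have h1 : KK (π / 2) ≤ 0 := by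
    unfold KK gg bb
    rw [Real.cos_pi_div_two, Real.sin_pi_div_two]
    nlinarith
  have h2 : 0 ≤ KK (π / 3) := by
    unfold KK gg bb
    rw [Real.cos_pi_div_three, Real.sin_pi_div_three]
    have h3 : (1.7 : ℝ) ≤ Real.sqrt 3 := by
      apply Real.le_sqrt_of_sq_le; norm_num
    have h3' : Real.sqrt 3 ≤ 1.8 := by
      rw [Real.sqrt_le_left (by norm_num)]; norm_num
    have h315 : π ≤ 3.15 := by linarith [Real.pi_lt_d2]
    set r := Real.sqrt 3
    have key : 1 / 2 + (π / 3 + π / 3 - π) * (2 * (1 / 2) - 2 * (π / 3) * (r / 2)) +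
        π / 3 * (-(r / 2) + (2 * (1 / 2) - 2 * (π / 3) * (r / 2)) +
        (2 * (1 / 2) - 2 * (π / 3) * (r / 2) +
        (π / 3 + π / 3 - π) * (-4 * (r / 2) - 2 * (π / 3) * (1 / 2))))
        = 1 / 2 + π / 3 - r * π / 6 + (π ^ 2 * r) / 9 * 1 + π ^ 3 / 27 := by ring
    rw [key]
    have h6 : r * π / 6 ≤ π ^ 2 * r / 9 := by
      have : 0 ≤ r * π * (π / 9 - 1 / 6) := by
        apply mul_nonneg
        · positivity
        · linarith
      nlinarith
    have : 0 ≤ π ^ 3 / 27 := by positivity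
    linarith
  have := intermediate_value_Icc' hle hcont.continuousOn
  have hmem : (0 : ℝ) ∈ Icc (KK (π / 2)) (KK (π / 3)) := ⟨h1, h2⟩
  obtain ⟨t, ht, hK⟩ := this hmem
  exact ⟨t, ht, hK⟩

end Pool.Agent.BP
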