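import Pool.Agent.BP.Cyl3

set_option autoImplicit false

open Real Set Filter Topology
open scoped ContDiff

namespace Pool.Agent.BP

variable {E : Type} [NormedAddCommGroup E] [NormedSpace ℝ E]

/-- squared length of the projection -/
def nsq (Z : E →L[ℝ] ℝ × ℝ) (q : E) : ℝ := (Z q).1 ^ 2 + (Z q).2 ^ 2

/-- the two-form `d (g (x dy - y dx))` -/
noncomputable def dform (Z : E →L[ℝ] ℝ × ℝ) (g : E → ℝ) (p u v : E) : ℝ :=
  2 * g p * det2 (Z u) (Z v) + (fderiv ℝ g p u) * det2 (Z p) (Z v)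
    - (fderiv ℝ g p v) * det2 (Z p) (Z u)

noncomputable def psA (Z : E →L[ℝ] ℝ × ℝ) (g : E → ℝ) (q : E) : ℝ × ℝ :=
  Real.sqrt (2 * g q) • Z q

lemma nsq_contDiff (Z : E →L[ℝ] ℝ × ℝ) : ContDiff ℝ ∞ (nsq Z) := by
  unfold nsq
  exact ((contDiff_fst.comp Z.contDiff).pow 2).add ((contDiff_snd.comp Z.contDiff).pow 2)

lemma psA_spec (Z : E →L[ℝ] ℝ × ℝ) {g : E → ℝ} {p : E} (hg : ContDiffAt ℝ ∞ g p)
    (hpos : 0 < g p) :
    ContDiffAt ℝ ∞ (psA Z g) p ∧
      ∀ u v : E, det2 (fderiv ℝ (psA Z g) p u) (fderiv ℝ (psA Z g) p v) = dform Z g p u v := by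
  have h2g : (2 * g p) ≠ 0 := by positivity
  have hgd : HasFDerivAt g (fderiv ℝ g p) p := (hg.differentiableAt (by simp)).hasFDerivAt
  constructor
  · unfold psA
    exact ((contDiffAt_const.mul hg).sqrt h2g).smul Z.contDiff.contDiffAt
  · intro u v
    have hs : HasFDerivAt (fun q => Real.sqrt (2 * g q))
        ((1 / (2 * Real.sqrt (2 * g p))) • ((2 : ℝ) • fderiv ℝ g p)) p :=
      (hgd.const_mul 2).sqrt h2g
    have h := hs.smul Z.hasFDerivAt (x := p)
    have hfd : fderiv ℝ (psA Z g) p = _ := h.fderiv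
    rw [hfd]
    have hsq : Real.sqrt (2 * g p) ^ 2 = 2 * g p := Real.sq_sqrt (by positivity)
    have hsp : 0 < Real.sqrt (2 * g p) := Real.sqrt_pos.mpr (by positivity)
    set r := Real.sqrt (2 * g p) with hr
    have hgr : g p = r ^ 2 / 2 := by rw [hsq]; ring
    unfold dform det2
    simp only [add_apply, smul_apply,
      ContinuousLinearMap.smulRight_apply, Prod.fst_add, Prod.snd_add, Prod.smul_fst,
      Prod.smul_snd, smul_eq_mul]
    rw [hgr]
    field_simp
    ring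

/-- complex coordinate of the projection -/
noncomputable def wz (Z : E →L[ℝ] ℝ × ℝ) (q : E) : ℂ := ⟨(Z q).1, (Z q).2⟩

noncomputable def psB (Z : E →L[ℝ] ℝ × ℝ) (g : E → ℝ) (k : ℝ) (q : E) : ℝ × ℝ :=
  Phk k (nsq Z q * g q, Complex.arg (wz Z q))

/-- `wz` as a continuous linear map -/
noncomputable def wzL (Z : E →L[ℝ] ℝ × ℝ) : E →L[ℝ] ℂ :=
  (Complex.equivRealProdCLM.symm : ℝ × ℝ →L[ℝ] ℂ).comp Z

lemma wzL_apply (Z : E →L[ℝ] ℝ × ℝ) (q : E) : wzL Z q = wz Z q := by
  unfold wzL wz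
  apply Complex.ext <;> simp [Complex.equivRealProdCLM_symm_apply]

lemma local_angle (Z : E →L[ℝ] ℝ × ℝ) {p : E} (hp : wz Z p ≠ 0) :
    ∃ A : E → ℝ, ContDiffAt ℝ ∞ A p ∧
      (∃ DA : E →L[ℝ] ℝ, HasFDerivAt A DA p ∧
        ∀ u, DA u = det2 (Z p) (Z u) / nsq Z p) ∧
      (∀ q, wz Z q ≠ 0 → ∃ n : ℤ, Complex.arg (wz Z q) - A q = 2 * π * n) := by
  set θ₀ := Complex.arg (wz Z p) with hθ
  set e : ℂ := Complex.exp (-(θ₀ : ℂ) * Complex.I) with he
  have he0 : e ≠ 0 := Complex.exp_ne_zero _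
  have hpe : wz Z p * e = (‖wz Z p‖ : ℂ) := by
    have h1 := Complex.norm_mul_exp_arg_mul_I (wz Z p)
    rw [← hθ] at h1
    conv_lhs => rw [← h1]
    rw [he, mul_assoc, ← Complex.exp_add]
    simp
  have hslit : wz Z p * e ∈ Complex.slitPlane := by
    rw [hpe]
    exact Complex.ofReal_mem_slitPlane.mpr (norm_pos_iff.mpr hp)
  -- the function
  refine ⟨fun q => θ₀ + (Complex.log (wzL Z q * e)).im, ?_, ?_, ?_⟩
  · have hlog : ContDiffAt ℝ ∞ Complex.log (wzL Z p * e) := by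
      rw [wzL_apply]
      exact (Complex.contDiffAt_log hslit).restrict_scalars ℝ
    have hin : ContDiffAt ℝ ∞ (fun q => wzL Z q * e) p :=
      (wzL Z).contDiff.contDiffAt.mul contDiffAt_const
    have hcomp : ContDiffAt ℝ ∞ (fun q => Complex.log (wzL Z q * e)) p :=
      ContDiffAt.comp (g := Complex.log) (f := fun q => wzL Z q * e) p hlog hin
    have him : ContDiffAt ℝ ∞ (fun q => (Complex.log (wzL Z q * e)).im) p :=
      Complex.imCLM.contDiff.contDiffAt.comp p hcomp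
    exact contDiffAt_const.add him
  · have hlog : HasFDerivAt Complex.log ((wzL Z p * e)⁻¹ • (1 : ℂ →L[ℝ] ℂ)) (wzL Z p * e) := by
      apply HasStrictFDerivAt.hasFDerivAt
      apply Complex.hasStrictFDerivAt_log_real
      rw [wzL_apply]; exact hslit
    have hin : HasFDerivAt (fun q => wzL Z q * e) (e • (wzL Z)) p := by
      have := (wzL Z).hasFDerivAt (x := p) |>.mul_const e
      exact this
    have hcomp := (Complex.imCLM.hasFDerivAt).comp p (hlog.comp p hin)
    have h2 := hcomp.const_add θ₀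
    refine ⟨_, h2, ?_⟩
    intro u
    simp only [ContinuousLinearMap.comp_apply, smul_apply,
      one_apply_eq_self, smul_eq_mul, Complex.imCLM_apply]
    rw [wzL_apply, wzL_apply]
    have h3 : (wz Z p * e)⁻¹ * (e * wz Z u) = wz Z u / wz Z p := by
      field_simp
    rw [h3, Complex.div_im]
    have h4 : Complex.normSq (wz Z p) = nsq Z p := by
      unfold wz nsq
      rw [Complex.normSq_mk]; ring
    rw [h4]
    unfold det2 wz
    simp only
    ring
  · intro q hq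
    have h1 : ((Complex.arg (wz Z q * e) : ℝ) : Real.Angle)
        = (Complex.arg (wz Z q) : Real.Angle) + (Complex.arg e : Real.Angle) :=
      Complex.arg_mul_coe_angle hq he0
    have h2 : (Complex.arg e : Real.Angle) = ((-θ₀ : ℝ) : Real.Angle) := by
      have h3 : e = Complex.cos ((-θ₀ : ℝ) : ℂ) + Complex.sin ((-θ₀ : ℝ) : ℂ) * Complex.I := by
        rw [he, ← Complex.exp_mul_I]; push_cast; ring_nf
      rw [h3]
      have h6 := Complex.arg_cos_add_sin_mul_I_coe_angle ((-θ₀ : ℝ) : Real.Angle)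
      rw [Real.Angle.cos_coe, Real.Angle.sin_coe] at h6
      rw [← Complex.ofReal_cos, ← Complex.ofReal_sin]
      exact h6
    rw [h2] at h1
    have h5 : ((Complex.arg (wz Z q) : ℝ) : Real.Angle)
        = ((θ₀ + (Complex.log (wzL Z q * e)).im : ℝ) : Real.Angle) := by
      rw [Complex.log_im, wzL_apply, Real.Angle.coe_add, h1]
      rw [Real.Angle.coe_neg]
      abel
    obtain ⟨n, hn⟩ := Real.Angle.angle_eq_iff_two_pi_dvd_sub.mp h5
    exact ⟨n, hn⟩

lemma Phk_angle_congr (k a b b' : ℝ) (h : ∃ n : ℤ, b - b' = 2 * π * n) :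
    Phk k (a, b) = Phk k (a, b') := by
  obtain ⟨n, hn⟩ := h
  have hb : b = b' + n * (2 * π) := by linarith
  rw [hb]
  exact (Phk_periodic k a).int_mul n b'

lemma psB_spec (Z : E →L[ℝ] ℝ × ℝ) {g : E → ℝ} {p : E} (hg : ContDiffAt ℝ ∞ g p)
    (hp : wz Z p ≠ 0) {k : ℝ} (hk : 0 < k) :
    ContDiffAt ℝ ∞ (psB Z g k) p ∧
      ∀ u v : E, det2 (fderiv ℝ (psB Z g k) p u) (fderiv ℝ (psB Z g k) p v)
        = dform Z g p u v := by
  obtain ⟨A, hA, ⟨DA, hDA, hDAu⟩, hn⟩ := local_angle Z hp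
  have hgd : HasFDerivAt g (fderiv ℝ g p) p := (hg.differentiableAt (by simp)).hasFDerivAt
  have hev : psB Z g k =ᶠ[𝓝 p] fun q => Phk k (nsq Z q * g q, A q) := by
    have hcont : ContinuousAt (fun q => wz Z q) p := by
      have : (fun q => wz Z q) = fun q => wzL Z q := by funext q; rw [wzL_apply]
      rw [this]; exact (wzL Z).continuous.continuousAt
    filter_upwards [hcont.eventually_ne hp] with q hq
    exact Phk_angle_congr k _ _ _ (hn q hq)
  have hPs : ContDiffAt ℝ ∞ (fun q => nsq Z q * g q) p := (nsq_contDiff Z).contDiffAt.mul hg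
  have hsm : ContDiffAt ℝ ∞ (fun q => Phk k (nsq Z q * g q, A q)) p :=
    (Phk_contDiff k).contDiffAt.comp p (hPs.prodMk hA)
  refine ⟨hsm.congr_of_eventuallyEq hev, ?_⟩
  intro u v
  rw [hev.fderiv_eq]
  have hns : HasFDerivAt (nsq Z) (fderiv ℝ (nsq Z) p) p :=
    ((nsq_contDiff Z).differentiable (by simp)).differentiableAt.hasFDerivAt
  have hnsu : ∀ w, fderiv ℝ (nsq Z) p w = 2 * ((Z p).1 * (Z w).1 + (Z p).2 * (Z w).2) := by
    intro w
    have h1 : HasFDerivAt (fun q => (Z q).1) ((ContinuousLinearMap.fst ℝ ℝ ℝ).comp Z) p :=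
      hasFDerivAt_fst.comp p Z.hasFDerivAt
    have h2 : HasFDerivAt (fun q => (Z q).2) ((ContinuousLinearMap.snd ℝ ℝ ℝ).comp Z) p :=
      hasFDerivAt_snd.comp p Z.hasFDerivAt
    have h3 : HasFDerivAt (nsq Z) _ p := (h1.pow 2).add (h2.pow 2)
    rw [h3.fderiv]
    simp
    ring
  have hP : HasFDerivAt (fun q => nsq Z q * g q) _ p := hns.mul hgd
  have hPh : HasFDerivAt (Phk k) (fderiv ℝ (Phk k) (nsq Z p * g p, A p)) (nsq Z p * g p, A p) :=
    ((Phk_contDiff k).differentiable (by simp)).differentiableAt.hasFDerivAt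
  have hin : HasFDerivAt (fun q => (nsq Z q * g q, A q)) _ p := hP.prodMk hDA
  have hcomp : HasFDerivAt (fun q => Phk k (nsq Z q * g q, A q)) _ p :=
    HasFDerivAt.comp (g := Phk k) (f := fun q => (nsq Z q * g q, A q)) p hPh hin
  rw [hcomp.fderiv]
  simp only [ContinuousLinearMap.comp_apply]
  rw [Phk_jac hk hPh]
  simp only [ContinuousLinearMap.prod_apply, add_apply, smul_apply,
    smul_eq_mul]
  rw [hDAu, hDAu, hnsu, hnsu]
  have hne : nsq Z p ≠ 0 := by
    have h4 : Complex.normSq (wz Z p) = nsq Z p := by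
      unfold wz nsq
      rw [Complex.normSq_mk]; ring
    rw [← h4]
    exact (Complex.normSq_pos.mpr hp).ne'
  unfold dform det2
  simp only
  have hns2 : nsq Z p = (Z p).1 ^ 2 + (Z p).2 ^ 2 := rfl
  field_simp
  rw [hns2]
  ring

end Pool.Agent.BP
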